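import Pool.Agent.Y180.EM.RedbCore
import Pool.Agent.Y234.EM.Stm

/-!
# Project EM: the statement REDB
-/

set_option autoImplicit false

namespace Pool.Agent.Y180.EM

open Pool.Agent.Y234.EM

lemma mm_ne_top (k : Type) [Field k] (v : ℕ) : mm k v ≠ ⊤ := by
  intro h
  have h1 : mm k v ≤ RingHom.ker (MvPolynomial.constantCoeff (σ := Fin v) (R := k)) := by
    rw [Ideal.span_le]
    rintro x ⟨i, rfl⟩
    show MvPolynomial.constantCoeff (MvPolynomial.X i) = (0 : k)
    exact MvPolynomial.constantCoeff_X _ _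
  rw [h] at h1
  have h2 : (1 : MvPolynomial (Fin v) k) ∈
      RingHom.ker (MvPolynomial.constantCoeff (σ := Fin v) (R := k)) := h1 trivial
  rw [RingHom.mem_ker, map_one] at h2
  exact one_ne_zero h2

theorem redb : S_REDA → S_REDB := by
  intro hA k _ _ v c J hc hJ
  obtain ⟨s, g, hg⟩ := Submodule.fg_iff_exists_fin_generating_family.1 (IsNoetherian.noetherian J)
  obtain ⟨d, f, hf, hind, N, hN⟩ := core (k := k) (mm k v) J (mm_ne_top k v) g hg
  have hd : d ≤ v := by
    by_contra h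
    obtain ⟨n, G, hG0, hG, h2⟩ := hA k v c J hc hJ d f hf (by omega)
    exact hG0 (hind n G hG h2)
  refine ⟨fun i => if h : (i : ℕ) < d then f ⟨i, h⟩ else 0, ?_, N, ?_⟩
  · intro i
    by_cases h : (i : ℕ) < d
    · simp only [h, dif_pos]
      exact hf _
    · simp only [h, dif_neg, not_false_eq_true]
      exact Ideal.zero_mem _
  · refine hN.trans (sup_le_sup_right (Ideal.mul_mono_left (Ideal.span_mono ?_)) _)
    rintro x ⟨l, rfl⟩
    refine ⟨⟨l, lt_of_lt_of_le l.2 hd⟩, ?_⟩
    simp only [l.2, dif_pos]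

end Pool.Agent.Y180.EM
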