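import Pool.Agent.Y978.GS.NN

/-!
# Project EM, part REDB: existence of reductions from Noether normalization of the fibre cone
-/

set_option autoImplicit false

namespace Pool.Agent.Y180.EM

open MvPolynomial Pool.Agent.Y234.GS

section general
variable {k : Type} [Field k] {s : ℕ}

lemma comp_mul {F : MvPolynomial (Fin s) k} {e : ℕ} (hF : F.IsHomogeneous e)
    (G : MvPolynomial (Fin s) k) (d : ℕ) : homogeneousComponent d (F * G) =
      ∑ b ∈ Finset.range (G.totalDegree + 1),
        if e + b = d then F * homogeneousComponent b G else 0 := by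
  conv_lhs => rw [← sum_homogeneousComponent G]
  rw [Finset.mul_sum, map_sum]
  refine Finset.sum_congr rfl fun b _ => ?_
  have h1 : (F * homogeneousComponent b G).IsHomogeneous (e + b) :=
    hF.mul (homogeneousComponent_isHomogeneous b G)
  rw [homogeneousComponent_of_mem (m := d) (n := e + b) ((mem_homogeneousSubmodule _ _).2 h1)]
  by_cases h : e + b = d
  · rw [if_pos h, if_pos h.symm]
  · rw [if_neg h, if_neg fun h' => h h'.symm]

variable {R : Type} [CommRing R] [Algebra k R]

lemma aeval_mem {g : Fin s → R} {J : Ideal R} (hg : ∀ i, g i ∈ J) {F : MvPolynomial (Fin s) k}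
    {e : ℕ} (hF : F.IsHomogeneous e) : aeval g F ∈ J ^ e := by
  rw [aeval_def, eval₂_eq']
  refine Ideal.sum_mem _ fun m hm => Ideal.mul_mem_left _ _ ?_
  have h2 : ∑ i, m i = e := by
    rw [hF.degree_eq_sum_deg_support hm]
    exact (Finset.sum_subset (Finset.subset_univ _) (fun i _ hi => by simpa using hi)).symm
  have h3 : ∏ i, g i ^ m i ∈ ∏ i : Fin s, J ^ m i :=
    Ideal.prod_mem_prod fun i _ => Ideal.pow_mem_pow (hg i) _
  rw [Finset.prod_pow_eq_pow_sum, h2] at h3
  exact h3

/-- the relations in the fibre cone -/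
noncomputable def IF (g : Fin s → R) (M J : Ideal R) (hg : ∀ i, g i ∈ J) :
    Ideal (MvPolynomial (Fin s) k) where
  carrier := {G | ∀ d, aeval g (homogeneousComponent d G) ∈ M * J ^ d}
  zero_mem' := by
    intro d
    rw [map_zero, map_zero]
    exact Ideal.zero_mem _
  add_mem' := by
    intro a b ha hb d
    rw [map_add, map_add]
    exact Ideal.add_mem _ (ha d) (hb d)
  smul_mem' := by
    intro F G hG d
    have h1 : F • G = ∑ a ∈ Finset.range (F.totalDegree + 1), homogeneousComponent a F * G := by
      rw [smul_eq_mul, ← Finset.sum_mul, sum_homogeneousComponent]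
    rw [h1, map_sum, map_sum]
    refine Ideal.sum_mem _ fun a _ => ?_
    rw [comp_mul (homogeneousComponent_isHomogeneous a F), map_sum]
    refine Ideal.sum_mem _ fun b _ => ?_
    split_ifs with h
    · rw [map_mul, ← h, pow_add]
      have h2 := Ideal.mul_mem_mul (aeval_mem hg (homogeneousComponent_isHomogeneous a F)) (hG b)
      have h3 : J ^ a * (M * J ^ b) = M * (J ^ a * J ^ b) := by
        rw [← mul_assoc, mul_comm (J ^ a) M, mul_assoc]
      rw [h3] at h2
      exact h2
    · rw [map_zero]
      exact Ideal.zero_mem _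

lemma mem_IF {g : Fin s → R} {M J : Ideal R} {hg : ∀ i, g i ∈ J}
    {G : MvPolynomial (Fin s) k} : G ∈ IF g M J hg ↔
      ∀ d, aeval g (homogeneousComponent d G) ∈ M * J ^ d := Iff.rfl

lemma mem_IF_hom {g : Fin s → R} {M J : Ideal R} {hg : ∀ i, g i ∈ J}
    {G : MvPolynomial (Fin s) k} {n : ℕ} (hG : G.IsHomogeneous n) :
    G ∈ IF g M J hg ↔ aeval g G ∈ M * J ^ n := by
  have h1 : ∀ d, homogeneousComponent d G = if d = n then G else 0 := fun d =>
    homogeneousComponent_of_mem (m := d) (n := n) ((mem_homogeneousSubmodule _ _).2 hG)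
  constructor
  · intro h
    have h2 := h n
    rw [h1, if_pos rfl] at h2
    exact h2
  · intro h d
    rw [h1]
    split_ifs with hd
    · rw [hd]
      exact h
    · rw [map_zero]
      exact Ideal.zero_mem _

lemma comp_mem_IF {g : Fin s → R} {M J : Ideal R} {hg : ∀ i, g i ∈ J}
    {G : MvPolynomial (Fin s) k} (hG : G ∈ IF g M J hg) (d : ℕ) :
    homogeneousComponent d G ∈ IF g M J hg :=
  (mem_IF_hom (homogeneousComponent_isHomogeneous d G)).2 (hG d)

lemma pow_le_span (W : Submodule k R) {J : Ideal R} (hW : J ≤ Ideal.span (W : Set R)) (n : ℕ) :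
    J ^ n ≤ Ideal.span ((W ^ n : Submodule k R) : Set R) := by
  induction n with
  | zero =>
    have h1 : (1 : R) ∈ ((W ^ 0 : Submodule k R) : Set R) := by
      rw [pow_zero]
      exact Submodule.one_le.1 le_rfl
    have h2 : Ideal.span ((W ^ 0 : Submodule k R) : Set R) = ⊤ :=
      (Ideal.eq_top_iff_one _).2 (Ideal.subset_span h1)
    rw [h2]
    exact le_top
  | succ n ih =>
    rw [pow_succ]
    refine (Ideal.mul_mono ih hW).trans ?_
    rw [Ideal.span_mul_span']
    apply Ideal.span_mono
    rintro x ⟨a, ha, b, hb, rfl⟩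
    show a * b ∈ W ^ (n + 1)
    rw [pow_succ]
    exact Submodule.mul_mem_mul ha hb

/-- the general form -/
theorem core [Infinite k] (M J : Ideal R) (hM : M ≠ ⊤) (g : Fin s → R)
    (hg : Ideal.span (Set.range g) = J) :
    ∃ (d : ℕ) (f : Fin d → R), (∀ l, f l ∈ J) ∧
      (∀ (n : ℕ) (G : MvPolynomial (Fin d) k), G.IsHomogeneous n → aeval f G ∈ M * J ^ n →
        G = 0) ∧
      ∃ N : ℕ, J ^ (N + 1) ≤ Ideal.span (Set.range f) * J ^ N ⊔ M * J ^ (N + 1) := by
  have hgJ : ∀ i, g i ∈ J := fun i => by
    rw [← hg]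
    exact Ideal.subset_span ⟨i, rfl⟩
  set I : Ideal (MvPolynomial (Fin s) k) := IF g M J hgJ with hI
  have hI1 : I ≠ ⊤ := by
    intro h
    have h1 : (1 : MvPolynomial (Fin s) k) ∈ I := by rw [h]; trivial
    have h2 := h1 0
    rw [homogeneousComponent_zero, pow_zero, Ideal.one_eq_top, Ideal.mul_top, coeff_zero_one,
      map_one, map_one] at h2
    exact hM ((Ideal.eq_top_iff_one _).2 h2)
  have : Nontrivial (MvPolynomial (Fin s) k ⧸ I) := Ideal.Quotient.nontrivial_iff.2 hI1
  set z : Fin s → MvPolynomial (Fin s) k ⧸ I := fun i => Ideal.Quotient.mkₐ k I (X i) with hz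
  have hzm : ∀ G : MvPolynomial (Fin s) k, aeval z G = Ideal.Quotient.mkₐ k I G := by
    intro G
    have h1 : (aeval z : MvPolynomial (Fin s) k →ₐ[k] _) = Ideal.Quotient.mkₐ k I := by
      apply algHom_ext
      intro i
      rw [aeval_X]
    rw [h1]
  have hz0 : ∀ G : MvPolynomial (Fin s) k, Ideal.Quotient.mkₐ k I G = 0 ↔ G ∈ I := by
    intro G
    rw [Ideal.Quotient.mkₐ_eq_mk, Ideal.Quotient.eq_zero_iff_mem]
  obtain ⟨d, w, hw, N, hN⟩ := Pool.Agent.Y978.GS.nn k (MvPolynomial (Fin s) k ⧸ I) (Fin s) z
    (fun G hG e => by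
      rw [hzm, hz0] at hG ⊢
      exact comp_mem_IF hG e)
  -- the linear forms
  set L : Fin d → MvPolynomial (Fin s) k := fun l => ∑ i, w l i • X i with hL
  have hLh : ∀ l, (L l).IsHomogeneous 1 := by
    intro l
    rw [hL]
    refine IsHomogeneous.sum _ _ _ fun i _ => ?_
    rw [smul_eq_C_mul]
    have := (isHomogeneous_C (Fin s) (w l i)).mul (isHomogeneous_X k i)
    rwa [zero_add] at this
  have hLm : ∀ l, Ideal.Quotient.mkₐ k I (L l) = ∑ i, w l i • z i := by
    intro l
    rw [hL]
    simp only [map_sum, map_smul, hz]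
  set f : Fin d → R := fun l => aeval g (L l) with hf
  have hfJ : ∀ l, f l ∈ J := by
    intro l
    have := aeval_mem hgJ (hLh l)
    rwa [pow_one] at this
  refine ⟨d, f, hfJ, ?_, N, ?_⟩
  · intro n G hG hG2
    have h1 : (aeval L G).IsHomogeneous n := by
      have := hG.aeval L hLh
      rwa [one_mul] at this
    have h2 : aeval g (aeval L G) = aeval f G := by
      rw [← AlgHom.comp_apply, comp_aeval]
    have h3 : aeval L G ∈ I := (mem_IF_hom h1).2 (by rw [h2]; exact hG2)
    have h4 : aeval (fun l => ∑ i, w l i • z i) G = 0 := by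
      have h5 : aeval (fun l => ∑ i, w l i • z i) G =
          Ideal.Quotient.mkₐ k I (aeval L G) := by
        rw [← AlgHom.comp_apply, comp_aeval]
        congr 2
        funext l
        exact (hLm l).symm
      rw [h5, hz0]
      exact h3
    exact (algebraicIndependent_iff.1 hw) G h4
  · -- the cover
    set W : Submodule k R := VV k g with hW
    set U : Submodule k (MvPolynomial (Fin s) k) :=
      VV k (X : Fin s → MvPolynomial (Fin s) k) with hU
    have hWU : ∀ n, Submodule.map (aeval g : MvPolynomial (Fin s) k →ₐ[k] R).toLinearMap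
        (U ^ n) = W ^ n := by
      intro n
      rw [Submodule.map_pow]
      congr 1
      rw [hU, hW]
      unfold VV
      rw [Submodule.map_span, ← Set.range_comp]
      congr 2
      funext i
      exact aeval_X g i
    have hZU : ∀ n, Submodule.map (Ideal.Quotient.mkₐ k I).toLinearMap (U ^ n) =
        (VV k z) ^ n := by
      intro n
      rw [Submodule.map_pow]
      congr 1
      rw [hU]
      unfold VV
      rw [Submodule.map_span, ← Set.range_comp]
      rfl
    have hUh : ∀ n, ∀ A ∈ U ^ n, A.IsHomogeneous n := by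
      intro n
      induction n with
      | zero =>
        intro A hA
        rw [pow_zero] at hA
        obtain ⟨r, rfl⟩ := Submodule.mem_one.1 hA
        exact isHomogeneous_C _ _
      | succ n ih =>
        intro A hA
        rw [pow_succ] at hA
        induction hA using Submodule.mul_induction_on' with
        | mem_mul_mem a ha b hb =>
          refine (ih a ha).mul ?_
          rw [hU] at hb
          unfold VV at hb
          rw [← mem_homogeneousSubmodule]
          refine (Submodule.span_le (p := homogeneousSubmodule (Fin s) k 1)).2 ?_ hb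
          rintro x ⟨i, rfl⟩
          exact (mem_homogeneousSubmodule _ _).2 (isHomogeneous_X k i)
        | add x _ y _ hx hy => exact hx.add hy
    have hWJ : ∀ n, ∀ a ∈ W ^ n, a ∈ J ^ n := by
      intro n a ha
      rw [← hWU n] at ha
      obtain ⟨A, hA, rfl⟩ := ha
      exact aeval_mem hgJ (hUh n A hA)
    have hspan : J ≤ Ideal.span (W : Set R) := by
      rw [← hg]
      apply Ideal.span_mono
      rintro x ⟨i, rfl⟩
      exact Submodule.subset_span ⟨i, rfl⟩
    refine (pow_le_span W hspan (N + 1)).trans ?_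
    rw [Ideal.span_le]
    intro a ha
    rw [SetLike.mem_coe, ← hWU (N + 1)] at ha
    obtain ⟨A, hA, rfl⟩ := ha
    have h1 : Ideal.Quotient.mkₐ k I A ∈ (VV k z) ^ (N + 1) := by
      rw [← hZU (N + 1)]
      exact ⟨A, hA, rfl⟩
    obtain ⟨r, hr, hr2⟩ := hN _ h1
    have h2 : ∀ l, ∃ Rl ∈ U ^ N, Ideal.Quotient.mkₐ k I Rl = r l := by
      intro l
      have h3 := hr l
      rw [← hZU N] at h3
      obtain ⟨x, hx, hx2⟩ := h3
      exact ⟨x, hx, hx2⟩
    choose Q hQ hQ2 using h2
    have h3 : (A - ∑ l, L l * Q l).IsHomogeneous (N + 1) := by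
      rw [← mem_homogeneousSubmodule]
      refine Submodule.sub_mem _ ((mem_homogeneousSubmodule _ _).2 (hUh _ A hA)) ?_
      refine Submodule.sum_mem _ fun l _ => (mem_homogeneousSubmodule _ _).2 ?_
      have := (hLh l).mul (hUh N (Q l) (hQ l))
      rwa [add_comm] at this
    have h4 : A - ∑ l, L l * Q l ∈ I := by
      rw [← hz0, map_sub, hr2, map_sum, sub_eq_zero]
      refine Finset.sum_congr rfl fun l _ => ?_
      rw [map_mul, hLm, hQ2]
    have h5 := (mem_IF_hom h3).1 h4
    rw [map_sub, map_sum] at h5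
    have h6 : aeval g A = ∑ l, aeval g (L l * Q l) + (aeval g A - ∑ l, aeval g (L l * Q l)) := by
      ring
    show aeval g A ∈ _
    rw [h6]
    refine Submodule.add_mem_sup (Ideal.sum_mem _ fun l _ => ?_) h5
    rw [map_mul]
    exact Ideal.mul_mem_mul (Ideal.subset_span ⟨l, rfl⟩) (aeval_mem hgJ (hUh N (Q l) (hQ l)))

end general

end Pool.Agent.Y180.EM
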